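import Pool.Agent.Y165.BC.Stm

/-!
# Project BC (helper165): the generating function of the number of block carries (helper390)
-/

set_option autoImplicit false

namespace Pool.Agent.Y390.BC

open Finset Pool.Agent.Y165.BC

theorem sum_split (Q R : ℕ) (hQ : 0 < Q) (f : ℕ → ℚ) :
    ∑ t ∈ range (Q * R), f t = ∑ t0 ∈ range Q, ∑ u ∈ range R, f (t0 + Q * u) := by
  rw [← Finset.sum_product']
  symm
  refine Finset.sum_nbij' (fun p : ℕ × ℕ => p.1 + Q * p.2) (fun t => (t % Q, t / Q)) ?_ ?_ ?_ ?_ ?_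
  · rintro ⟨a, b⟩ h
    simp only [mem_product, mem_range] at h ⊢
    have h1 : Q * (b + 1) ≤ Q * R := Nat.mul_le_mul_left _ h.2
    have h2 : Q * (b + 1) = Q * b + Q := by ring
    omega
  · intro t h
    simp only [mem_product, mem_range] at h ⊢
    exact ⟨Nat.mod_lt _ hQ, Nat.div_lt_of_lt_mul h⟩
  · rintro ⟨a, b⟩ h
    simp only [mem_product, mem_range] at h
    ext
    · show (a + Q * b) % Q = a
      rw [Nat.add_mul_mod_self_left, Nat.mod_eq_of_lt h.1]
    · show (a + Q * b) / Q = b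
      rw [Nat.add_mul_div_left _ _ hQ, Nat.div_eq_of_lt h.1, zero_add]
  · intro t _
    exact Nat.mod_add_div t Q
  · intro p _
    rfl

theorem cc_step (R m j K t0 u : ℕ) : cc R m j (K + 1) (t0 + R ^ K * u) = cc R m j K t0 +
    (if R ^ K * R ≤ (j * (t0 + R ^ K * u)) % (R ^ K * R) +
      ((m - j) * (t0 + R ^ K * u)) % (R ^ K * R) then 1 else 0) := by
  unfold cc
  rw [Finset.card_filter, Finset.card_filter, Finset.sum_range_succ, pow_succ R K]
  congr 1
  refine Finset.sum_congr rfl fun i hi => ?_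
  have hiK : i + 1 ≤ K := by have := mem_range.1 hi; omega
  have hd : R ^ (i + 1) ∣ R ^ K * u := Dvd.dvd.mul_right (pow_dvd_pow R hiK) u
  have hmod : t0 + R ^ K * u ≡ t0 [MOD R ^ (i + 1)] := by
    have h1 : R ^ K * u ≡ 0 [MOD R ^ (i + 1)] := (Nat.modEq_zero_iff_dvd).2 hd
    simpa using Nat.ModEq.add_left t0 h1
  have e1 : (j * (t0 + R ^ K * u)) % R ^ (i + 1) = (j * t0) % R ^ (i + 1) :=
    Nat.ModEq.mul_left j hmod
  have e2 : ((m - j) * (t0 + R ^ K * u)) % R ^ (i + 1) = ((m - j) * t0) % R ^ (i + 1) :=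
    Nat.ModEq.mul_left (m - j) hmod
  rw [e1, e2]

theorem W_bound (hB : BLK) (R m j : ℕ) (h1 : 1 ≤ j) (h2 : j < m) (h3 : 36 * m ≤ R) (K : ℕ) :
    ∑ t ∈ range (R ^ K), (1 / 2 : ℚ) ^ cc R m j K t ≤ (13 * R / 16 : ℚ) ^ K := by
  have hR : 0 < R := by omega
  induction K with
  | zero => simp [cc]
  | succ K ih =>
    have hQ : 0 < R ^ K := pow_pos hR K
    have hs := sum_split (R ^ K) R hQ (fun t => (1 / 2 : ℚ) ^ cc R m j (K + 1) t)
    rw [← pow_succ] at hs
    rw [hs]
    have hin : ∀ t0 ∈ range (R ^ K),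
        ∑ u ∈ range R, (1 / 2 : ℚ) ^ cc R m j (K + 1) (t0 + R ^ K * u) ≤
          (1 / 2 : ℚ) ^ cc R m j K t0 * (13 * R / 16 : ℚ) := by
      intro t0 ht0
      have hb := hB (R ^ K) R m j t0 hQ (mem_range.1 ht0) h1 h2 h3
      have hterm : ∀ u ∈ range R, (1 / 2 : ℚ) ^ cc R m j (K + 1) (t0 + R ^ K * u) =
          (1 / 2 : ℚ) ^ cc R m j K t0 * (1 - 1 / 2 * (if R ^ K * R ≤
            (j * (t0 + R ^ K * u)) % (R ^ K * R) +
              ((m - j) * (t0 + R ^ K * u)) % (R ^ K * R) then 1 else 0)) := by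
        intro u _
        rw [cc_step, pow_add]
        congr 1
        split_ifs <;> norm_num
      rw [Finset.sum_congr rfl hterm, ← Finset.mul_sum]
      refine mul_le_mul_of_nonneg_left ?_ (by positivity)
      rw [Finset.sum_sub_distrib, ← Finset.mul_sum, Finset.sum_boole, Finset.sum_const,
        Finset.card_range, nsmul_eq_mul, mul_one]
      have hb' : (3 * R : ℚ) ≤ 8 * ((((range R).filter fun u =>
          R ^ K * R ≤ (j * (t0 + R ^ K * u)) % (R ^ K * R) +
            ((m - j) * (t0 + R ^ K * u)) % (R ^ K * R)).card : ℕ) : ℚ) := by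
        exact_mod_cast hb
      linarith
    refine (Finset.sum_le_sum hin).trans ?_
    rw [← Finset.sum_mul, pow_succ]
    exact mul_le_mul_of_nonneg_right ih (by positivity)

theorem t_WGT (hB : BLK) : WGT := by
  intro R m j K a h1 h2 h3
  have hW := W_bound hB R m j h1 h2 h3 K
  set S := (range (R ^ K)).filter fun t => cc R m j K t < a with hS
  have hle : (S.card : ℚ) * (1 / 2 : ℚ) ^ a ≤ (13 * R / 16 : ℚ) ^ K := by
    refine le_trans ?_ hW
    calc (S.card : ℚ) * (1 / 2 : ℚ) ^ a = ∑ t ∈ S, (1 / 2 : ℚ) ^ a := by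
          rw [Finset.sum_const, nsmul_eq_mul]
      _ ≤ ∑ t ∈ S, (1 / 2 : ℚ) ^ cc R m j K t := by
          refine Finset.sum_le_sum fun t ht => ?_
          exact pow_le_pow_of_le_one (by norm_num) (by norm_num) (mem_filter.1 ht).2.le
      _ ≤ ∑ t ∈ range (R ^ K), (1 / 2 : ℚ) ^ cc R m j K t :=
          Finset.sum_le_sum_of_subset_of_nonneg (filter_subset _ _) fun _ _ _ => by positivity
  have h4 : (S.card : ℚ) * 16 ^ K ≤ 2 ^ a * (13 * R) ^ K := by
    rw [one_div, inv_pow, div_pow, le_div_iff₀ (by positivity)] at hle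
    have h5 : (0 : ℚ) < 2 ^ a := by positivity
    calc (S.card : ℚ) * 16 ^ K = 2 ^ a * ((S.card : ℚ) * (2 ^ a)⁻¹ * 16 ^ K) := by
          field_simp
      _ ≤ 2 ^ a * (13 * R) ^ K := mul_le_mul_of_nonneg_left hle h5.le
  exact_mod_cast h4

end Pool.Agent.Y390.BC
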